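import Pool.Agent.Helper38.TR.C
import Pool.Agent.Helper95.TR.B23

/-!
MP_b8862a_ag, unitary (type IV) theorem, case `p = q`, block LE2: the rank of a root vector divides
the rank of every square zero element (simply laced case, without an invariant form).
-/

open Module LieModule LieAlgebra LieAlgebra.IsKilling

attribute [local instance 100] LieRing.ofAssociativeRing

set_option linter.unusedSectionVars false

namespace UN

open MTP MTP.MF Pool.Agent.Helper54.MT

namespace LE2

variable {K : Type*} [Field K] [CharZero K] [IsAlgClosed K] {V : Type*} [AddCommGroup V]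
  [Module K V] [FiniteDimensional K V]

section gen

variable {L : LieSubalgebra K (Module.End K V)}

lemma irrSymp (hirr : ∀ W : Submodule K V, (∀ z ∈ L, ∀ w ∈ W, z w ∈ W) → W = ⊥ ∨ W = ⊤) :
    IrrSymp (0 : LinearMap.BilinForm K V) L.toSubmodule where
  br := fun x hx y hy => L.lie_mem hx hy
  sk := fun x _ v w => by simp
  irr := hirr

lemma trace_eq_zero (hsimple : IsSimple K L) : ∀ z ∈ L, LinearMap.trace K V z = 0 := by
  let R : LieIdeal K L :=
    { carrier := {y | LinearMap.trace K V (y : Module.End K V) = 0}
      add_mem' := by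
        intro a b ha hb
        change LinearMap.trace K V ((a : Module.End K V) + (b : Module.End K V)) = 0
        rw [map_add]
        change LinearMap.trace K V (a : Module.End K V) = 0 at ha
        change LinearMap.trace K V (b : Module.End K V) = 0 at hb
        rw [ha, hb, add_zero]
      zero_mem' := by
        change LinearMap.trace K V (0 : Module.End K V) = 0
        rw [map_zero]
      smul_mem' := by
        intro c a ha
        change LinearMap.trace K V (c • (a : Module.End K V)) = 0
        change LinearMap.trace K V (a : Module.End K V) = 0 at ha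
        rw [map_smul, ha, smul_zero]
      lie_mem := by
        intro x m _
        change LinearMap.trace K V ((x : Module.End K V) * (m : Module.End K V) -
          (m : Module.End K V) * (x : Module.End K V)) = 0
        rw [map_sub, LinearMap.trace_mul_comm, sub_self] }
  have hR : ∀ y : L, y ∈ R ↔ LinearMap.trace K V (y : Module.End K V) = 0 := fun y => Iff.rfl
  rcases hsimple.eq_bot_or_eq_top R with h | h
  · exfalso
    apply hsimple.non_abelian
    constructor
    intro a b
    have h1 : ⁅a, b⁆ ∈ R := by
      rw [hR]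
      change LinearMap.trace K V ((a : Module.End K V) * (b : Module.End K V) -
          (b : Module.End K V) * (a : Module.End K V)) = 0
      rw [map_sub, LinearMap.trace_mul_comm, sub_self]
    rw [h, LieSubmodule.mem_bot] at h1
    exact h1
  · intro z hz
    rw [← hR ⟨z, hz⟩, h]
    exact LieSubmodule.mem_top _

/-- nondegeneracy of the trace form -/
lemma nondeg (hirr : ∀ W : Submodule K V, (∀ z ∈ L, ∀ w ∈ W, z w ∈ W) → W = ⊥ ∨ W = ⊤)
    (hsimple : IsSimple K L) {z : Module.End K V} (hz : z ∈ L)
    (h : ∀ y ∈ L, LinearMap.trace K V (z * y) = 0) : z = 0 := by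
  let R : LieIdeal K L :=
    { carrier := {z | ∀ y ∈ L, LinearMap.trace K V ((z : Module.End K V) * y) = 0}
      add_mem' := by
        intro a b ha hb y hy
        change LinearMap.trace K V (((a : Module.End K V) + (b : Module.End K V)) * y) = 0
        rw [add_mul, map_add, ha y hy, hb y hy, add_zero]
      zero_mem' := by
        intro y _
        change LinearMap.trace K V ((0 : Module.End K V) * y) = 0
        rw [zero_mul, map_zero]
      smul_mem' := by
        intro c a ha y hy
        change LinearMap.trace K V ((c • (a : Module.End K V)) * y) = 0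
        rw [smul_mul_assoc, map_smul, ha y hy, smul_zero]
      lie_mem := by
        intro x m hm w hw
        change LinearMap.trace K V (((x : Module.End K V) * (m : Module.End K V) -
          (m : Module.End K V) * (x : Module.End K V)) * w) = 0
        have h1 := hm _ (L.lie_mem hw x.2)
        rw [LieRing.of_associative_ring_bracket, mul_sub, map_sub] at h1
        rw [sub_mul, map_sub]
        have e1 : LinearMap.trace K V ((x : Module.End K V) * m * w) =
            LinearMap.trace K V ((m : Module.End K V) * (w * x)) := by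
          rw [mul_assoc, LinearMap.trace_mul_comm, mul_assoc]
        have e2 : LinearMap.trace K V ((m : Module.End K V) * x * w) =
            LinearMap.trace K V ((m : Module.End K V) * (x * w)) := by
          rw [mul_assoc]
        rw [e1, e2]
        exact h1 }
  have hbot := ideal_eq_bot L hirr (trace_eq_zero hsimple) R (fun y hy y' _ => hy y' y'.2)
  have h1 : (⟨z, hz⟩ : L) ∈ R := h
  rw [hbot, LieSubmodule.mem_bot] at h1
  exact congrArg Subtype.val h1

/-- A square zero element for which the trace identity holds is extremal. -/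
lemma ext_of_trace
    (hirr : ∀ W : Submodule K V, (∀ z ∈ L, ∀ w ∈ W, z w ∈ W) → W = ⊥ ∨ W = ⊤)
    (hsimple : IsSimple K L) {x : Module.End K V} (hx : x ∈ L) (hxx : x * x = 0) (hx0 : x ≠ 0)
    (h : ∀ y ∈ L, (rk x : K) * LinearMap.trace K V ((x * y) * (x * y)) =
      (LinearMap.trace K V (x * y)) ^ 2) {y : Module.End K V} (hy : y ∈ L) :
    x * y * x = (LinearMap.trace K V (x * y) / rk x) • x := by
  have hL := irrSymp hirr
  have hr0 : (rk x : K) ≠ 0 := by rw [Nat.cast_ne_zero]; exact (rk_pos.mpr hx0).ne'
  rw [← sub_eq_zero]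
  apply nondeg hirr hsimple
  · exact L.toSubmodule.sub_mem (hL.sandwich hx hxx hy) (L.toSubmodule.smul_mem _ hx)
  intro y' hy'
  rw [sub_mul, map_sub, smul_mul_assoc, map_smul, smul_eq_mul]
  have h1 := h y hy
  have h2 := h y' hy'
  have h3 := h _ (L.add_mem hy hy')
  have e : x * (y + y') * (x * (y + y')) = x * y * (x * y) + x * y' * (x * y') + x * y * (x * y')
    + x * y' * (x * y) := by noncomm_ring
  have e2 : LinearMap.trace K V (x * y' * (x * y)) = LinearMap.trace K V (x * y * (x * y')) :=
    LinearMap.trace_mul_comm _ _ _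
  rw [e, map_add, map_add, map_add, e2, mul_add x y y', map_add] at h3
  have e3 : x * y * x * y' = x * y * (x * y') := by noncomm_ring
  rw [e3]
  field_simp
  linear_combination (1 / 2) * h3 - (1 / 2) * h1 - (1 / 2) * h2

/-- the span of the extremal elements is stable under square zero elements -/
lemma comm_span
    (hirr : ∀ W : Submodule K V, (∀ z ∈ L, ∀ w ∈ W, z w ∈ W) → W = ⊥ ∨ W = ⊤) {r : ℕ}
    {s x : Module.End K V} (hs : s ∈ L) (hss : s * s = 0)
    (hx : x ∈ Submodule.span K (TR.RD.Ex L.toSubmodule r)) :
    s * x - x * s ∈ Submodule.span K (TR.RD.Ex L.toSubmodule r) := by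
  have hL := irrSymp hirr
  induction hx using Submodule.span_induction with
  | zero => simp
  | add a b _ _ ha hb =>
    have : s * (a + b) - (a + b) * s = (s * a - a * s) + (s * b - b * s) := by noncomm_ring
    rw [this]; exact Submodule.add_mem _ ha hb
  | smul c a _ ha =>
    have : s * (c • a) - (c • a) * s = c • (s * a - a * s) := by
      rw [mul_smul_comm, smul_mul_assoc, smul_sub]
    rw [this]; exact Submodule.smul_mem _ _ ha
  | mem x hx =>
    have hp : (1 + s) * (1 - s) = 1 := by
      have : (1 + s) * (1 - s) = 1 - s * s := by noncomm_ring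
      rw [this, hss, sub_zero]
    have hm : (1 - s) * (1 + s) = 1 := by
      have : (1 - s) * (1 + s) = 1 - s * s := by noncomm_ring
      rw [this, hss, sub_zero]
    have k1 : ∀ z ∈ L.toSubmodule, (1 + s) * z * (1 - s) ∈ L.toSubmodule := by
      intro z hz
      have e : (1 + s) * z * (1 - s) = z + (s * z - z * s) - s * z * s := by noncomm_ring
      rw [e]
      exact Submodule.sub_mem _ (Submodule.add_mem _ hz (hL.br s hs z hz)) (hL.sandwich hs hss hz)
    have k2 : ∀ z ∈ L.toSubmodule, (1 - s) * z * (1 + s) ∈ L.toSubmodule := by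
      intro z hz
      have e : (1 - s) * z * (1 + s) = z - (s * z - z * s) - s * z * s := by noncomm_ring
      rw [e]
      exact Submodule.sub_mem _ (Submodule.sub_mem _ hz (hL.br s hs z hz)) (hL.sandwich hs hss hz)
    have a1 : (1 + s) * x * (1 - s) ∈ Submodule.span K (TR.RD.Ex L.toSubmodule r) :=
      Submodule.subset_span (TR.RD.Ex_conj hm hp k1 k2 hx)
    have a2 : (1 - s) * x * (1 + s) ∈ Submodule.span K (TR.RD.Ex L.toSubmodule r) :=
      Submodule.subset_span (TR.RD.Ex_conj hp hm k2 k1 hx)
    have e : s * x - x * s = (2 : K)⁻¹ • ((1 + s) * x * (1 - s) - (1 - s) * x * (1 + s)) := by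
      have : (1 + s) * x * (1 - s) - (1 - s) * x * (1 + s) = (2 : K) • (s * x - x * s) := by
        rw [two_smul]
        noncomm_ring
      rw [this, smul_smul, inv_mul_cancel₀ two_ne_zero, one_smul]
    rw [e]
    exact Submodule.smul_mem _ _ (Submodule.sub_mem _ a1 a2)

end gen

section main

variable {L : LieSubalgebra K (Module.End K V)} [IsKilling K L] {H : LieSubalgebra K L}
  [H.IsCartanSubalgebra]

/-- A subspace closed under brackets which contains all root vectors is everything. -/
lemma gen (M : Submodule K (Module.End K V)) (hbr : ∀ x ∈ M, ∀ y ∈ M, x * y - y * x ∈ M)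
    (hM : ∀ (α : H.root) (x : L), x ∈ rootSpace H α.1 → (x : Module.End K V) ∈ M) :
    L.toSubmodule ≤ M := by
  intro z hz
  let U : Submodule K L := M.comap L.toSubmodule.subtype
  have hU : ∀ x : L, x ∈ U ↔ (x : Module.End K V) ∈ M := fun x => Iff.rfl
  rw [← hU ⟨z, hz⟩]
  clear_value U
  refine root_induction (U := U) (H := H) ?_ _
  intro α x hx
  by_cases hα : α.IsZero
  · have h1 : x ∈ H := by
      have h2 : x ∈ rootSpace H (0 : H → K) := by
        have : (α : H → K) = 0 := hα
        rwa [this] at hx
      rwa [← LieSubalgebra.mem_toLieSubmodule, ← LieAlgebra.rootSpace_zero_eq K L H]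
    have h3 : (⟨x, h1⟩ : H) ∈ Submodule.span K (Set.range (rootSystem H).coroot) := by
      rw [RootPairing.IsRootSystem.span_coroot_eq_top]
      trivial
    have h4 : ∀ h : H, h ∈ Submodule.span K (Set.range (rootSystem H).coroot) → (h : L) ∈ U := by
      intro h hh
      induction hh using Submodule.span_induction with
      | zero => rw [ZeroMemClass.coe_zero]; exact zero_mem _
      | add a b _ _ ha hb => exact add_mem ha hb
      | smul c a _ ha => exact Submodule.smul_mem _ _ ha
      | mem h hh =>
        obtain ⟨β, rfl⟩ := hh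
        obtain ⟨e, f, ht, he, hf⟩ := exists_triple β
        have e1 : (((rootSystem H).coroot β : H) : L) = ⁅e, f⁆ := ht.lie_e_f.symm
        rw [e1, hU]
        have h5 : (e : Module.End K V) ∈ M := hM β e he
        have h6 : (f : Module.End K V) ∈ M := by
          have h1 : (rootSystem H).root ((rootSystem H).reflectionPerm β β) =
              - (rootSystem H).root β := by
            rw [RootPairing.root_reflectionPerm, RootPairing.reflection_apply_self]
          refine hM ((rootSystem H).reflectionPerm β β) f ?_
          have h2 : (((rootSystem H).reflectionPerm β β).1 : H → K) =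
              ((-β.1 : Weight K H L) : H → K) := by
            funext x
            have h3 := LinearMap.congr_fun h1 x
            exact h3
          rw [h2]
          exact hf
        exact hbr _ h5 _ h6
    exact h4 _ h3
  · have hα' : α ∈ H.root := by simpa [LieSubalgebra.root] using hα
    rw [hU]
    exact hM ⟨α, hα'⟩ x hx

lemma pair_small (hsl : ∀ α β : H.root, α ≠ β → (rootSystem H).root α ≠ -(rootSystem H).root β →
      (rootSystem H).pairingIn ℤ α β = -1 ∨ (rootSystem H).pairingIn ℤ α β = 0 ∨
      (rootSystem H).pairingIn ℤ α β = 1) (θ : H.root) (α : Weight K H L) (hα : α.IsNonZero)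
    (h1 : α ≠ θ.1) (h2 : α ≠ -θ.1) :
    α (coroot θ.1) = -1 ∨ α (coroot θ.1) = 0 ∨ α (coroot θ.1) = 1 := by
  have hα' : α ∈ H.root := by simpa [LieSubalgebra.root] using hα
  have h3 : (rootSystem H).root ⟨α, hα'⟩ ≠ -(rootSystem H).root θ := by
    intro h
    apply h2
    ext x
    exact LinearMap.congr_fun h x
  have h4 := hsl ⟨α, hα'⟩ θ (fun h => h1 (congrArg Subtype.val h)) h3
  have h5 : (algebraMap ℤ K) ((rootSystem H).pairingIn ℤ ⟨α, hα'⟩ θ) = α (coroot θ.1) := by
    rw [RootPairing.algebraMap_pairingIn]
    rfl
  rw [← h5]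
  rcases h4 with h | h | h
  · left; rw [h]; simp
  · right; left; rw [h]; simp
  · right; right; rw [h]; simp

/-- Root vectors are extremal in the simply laced case. -/
lemma ext_root (hsl : ∀ α β : H.root, α ≠ β → (rootSystem H).root α ≠ -(rootSystem H).root β →
      (rootSystem H).pairingIn ℤ α β = -1 ∨ (rootSystem H).pairingIn ℤ α β = 0 ∨
      (rootSystem H).pairingIn ℤ α β = 1) (θ : H.root) {e : L} (he : e ∈ rootSpace H θ.1)
    (he0 : e ≠ 0) (x : L) : ∃ c : K, ⁅e, ⁅e, x⁆⁆ = c • e := by
  let U : Submodule K L :=
    { carrier := {x | ∃ c : K, ⁅e, ⁅e, x⁆⁆ = c • e}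
      add_mem' := by
        rintro a b ⟨c, hc⟩ ⟨d, hd⟩
        exact ⟨c + d, by rw [lie_add, lie_add, hc, hd, add_smul]⟩
      zero_mem' := ⟨0, by simp⟩
      smul_mem' := by
        rintro k a ⟨c, hc⟩
        exact ⟨k * c, by rw [lie_smul, lie_smul, hc, smul_smul]⟩ }
  have hmemU : ∀ z : L, z ∈ U ↔ ∃ c : K, ⁅e, ⁅e, z⁆⁆ = c • e := fun z => Iff.rfl
  clear_value U
  rw [← hmemU]
  refine root_induction (U := U) (H := H) ?_ x
  intro α z hz
  rw [hmemU]
  have h1 : ⁅e, ⁅e, z⁆⁆ ∈ rootSpace H ((θ.1 : H → K) + ((θ.1 : H → K) + (α : H → K))) :=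
    lie_mem_genWeightSpace_of_mem_genWeightSpace he
      (lie_mem_genWeightSpace_of_mem_genWeightSpace he hz)
  rcases eq_or_ne (rootSpace H ((θ.1 : H → K) + ((θ.1 : H → K) + (α : H → K)))) ⊥
    with hbot | hbot
  · rw [hbot, LieSubmodule.mem_bot] at h1
    exact ⟨0, by rw [h1, zero_smul]⟩
  · let χ : Weight K H L := ⟨(θ.1 : H → K) + ((θ.1 : H → K) + (α : H → K)), hbot⟩
    have hχ : ∀ h, χ h = θ.1 h + (θ.1 h + α h) := fun h => rfl
    have hθ := H.isNonZero_coe_root θ
    have hθ2 : θ.1 (coroot θ.1) = 2 := root_apply_coroot hθ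
    have hneg : ∀ h, (-θ.1 : Weight K H L) h = - θ.1 h := fun h => rfl
    have h3 := hχ (coroot θ.1)
    rw [hθ2] at h3
    -- multiples of `θ`
    have hmul : ∀ (β : Weight K H L) (k : K), β.IsNonZero → (∀ h, β h = k * θ.1 h) →
        k = 1 ∨ k = -1 := by
      intro β k hβ hk
      rcases eq_neg_or_eq_of_eq_smul θ.1 β hβ k (by funext h; exact hk h) with h | h
      · right
        have h4 := hk (coroot θ.1)
        rw [h, hneg, hθ2] at h4
        have h5 : (2 : K) * (k + 1) = 0 := by linear_combination -h4
        exact eq_neg_of_add_eq_zero_left ((mul_eq_zero.mp h5).resolve_left two_ne_zero)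
      · left
        have h4 := hk (coroot θ.1)
        rw [h, hθ2] at h4
        have h5 : (2 : K) * (k - 1) = 0 := by linear_combination -h4
        exact sub_eq_zero.mp ((mul_eq_zero.mp h5).resolve_left two_ne_zero)
    by_cases hαθ : α = -θ.1
    · have h4 : (θ.1 : H → K) + ((θ.1 : H → K) + (α : H → K)) = (θ.1 : H → K) := by
        funext h
        change θ.1 h + (θ.1 h + α h) = θ.1 h
        rw [hαθ, hneg]
        ring
      rw [h4] at h1
      exact mem_line he he0 h1
    exfalso
    -- the value of `α`
    have hαv : α (coroot θ.1) = -1 ∨ α (coroot θ.1) = 0 ∨ α (coroot θ.1) = 1 := by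
      by_cases hα : α.IsZero
      · right; left
        have : (α : H → K) = 0 := hα
        rw [this]; rfl
      · refine pair_small hsl θ α hα ?_ hαθ
        intro h
        have h5 : ∀ x, χ x = 3 * θ.1 x := by
          intro x
          rw [hχ, h]
          ring
        have hχ0 : χ.IsNonZero := by
          intro h6
          have h7 : χ (coroot θ.1) = 0 := congrFun h6 _
          rw [h5, hθ2] at h7
          norm_num at h7
        rcases hmul χ 3 hχ0 h5 with h6 | h6 <;> norm_num at h6
    by_cases hχ0 : χ.IsZero
    · have h7 : χ (coroot θ.1) = 0 := congrFun hχ0 _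
      rw [h7] at h3
      rcases hαv with h | h | h <;> rw [h] at h3 <;> norm_num at h3
    · have hχv : χ (coroot θ.1) = -1 ∨ χ (coroot θ.1) = 0 ∨ χ (coroot θ.1) = 1 := by
        refine pair_small hsl θ χ hχ0 ?_ ?_
        · intro h
          apply hαθ
          ext x
          have h4 := hχ x
          rw [h] at h4
          rw [hneg]
          linear_combination -h4
        · intro h
          have h5 : ∀ x, α x = (-3) * θ.1 x := by
            intro x
            have h4 := hχ x
            rw [h, hneg] at h4
            linear_combination -h4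
          have hα0 : α.IsNonZero := by
            intro h6
            have h7 : α (coroot θ.1) = 0 := congrFun h6 _
            rw [h5, hθ2] at h7
            norm_num at h7
          rcases hmul α (-3) hα0 h5 with h6 | h6 <;> norm_num at h6
      rcases hχv with h' | h' | h' <;> rcases hαv with h | h | h <;> rw [h, h'] at h3 <;>
        norm_num at h3

/-- The extremal elements span the simple Lie algebra. -/
lemma span_eq (hirr : ∀ W : Submodule K V, (∀ z ∈ L, ∀ w ∈ W, z w ∈ W) → W = ⊥ ∨ W = ⊤)
    (hsimple : IsSimple K L)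
    (hsq : ∀ (α : H.root) (x : L), x ∈ rootSpace H α.1 →
      toEnd K L V x * toEnd K L V x = 0) {r : ℕ}
    {e : Module.End K V} (he : e ∈ TR.RD.Ex L.toSubmodule r)
    (he0 : e ≠ 0) : Submodule.span K (TR.RD.Ex L.toSubmodule r) = L.toSubmodule := by
  apply le_antisymm (TR.RD.span_le _ _)
  have hideal : ∀ z ∈ L, ∀ x ∈ Submodule.span K (TR.RD.Ex L.toSubmodule r),
      z * x - x * z ∈ Submodule.span K (TR.RD.Ex L.toSubmodule r) := by
    let M : Submodule K (Module.End K V) :=
      { carrier := {z | ∀ x ∈ Submodule.span K (TR.RD.Ex L.toSubmodule r),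
          z * x - x * z ∈ Submodule.span K (TR.RD.Ex L.toSubmodule r)}
        add_mem' := by
          intro a b ha hb x hx
          have : (a + b) * x - x * (a + b) = (a * x - x * a) + (b * x - x * b) := by noncomm_ring
          rw [this]; exact Submodule.add_mem _ (ha x hx) (hb x hx)
        zero_mem' := by intro x _; simp
        smul_mem' := by
          intro c a ha x hx
          have : (c • a) * x - x * (c • a) = c • (a * x - x * a) := by
            rw [mul_smul_comm, smul_mul_assoc, smul_sub]
          rw [this]; exact Submodule.smul_mem _ _ (ha x hx) }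
    have h : L.toSubmodule ≤ M := by
      apply gen (H := H)
      · intro a ha b hb x hx
        have h1 := ha _ (hb x hx)
        have h2 := hb _ (ha x hx)
        have e : (a * b - b * a) * x - x * (a * b - b * a) =
          (a * (b * x - x * b) - (b * x - x * b) * a) -
            (b * (a * x - x * a) - (a * x - x * a) * b) := by
          noncomm_ring
        rw [e]
        exact Submodule.sub_mem _ h1 h2
      · intro α x hx y hy
        exact comm_span hirr x.2 (hsq α x hx) hy
    exact fun z hz => h hz
  let R : LieIdeal K L :=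
    { carrier := {y | (y : Module.End K V) ∈ Submodule.span K (TR.RD.Ex L.toSubmodule r)}
      add_mem' := by
        intro a b ha hb
        exact (Submodule.span K (TR.RD.Ex L.toSubmodule r)).add_mem ha hb
      zero_mem' := (Submodule.span K (TR.RD.Ex L.toSubmodule r)).zero_mem
      smul_mem' := by
        intro c a ha
        exact (Submodule.span K (TR.RD.Ex L.toSubmodule r)).smul_mem c ha
      lie_mem := by
        intro x m hm
        exact hideal x x.2 m hm }
  intro z hz
  rcases hsimple.eq_bot_or_eq_top R with h | h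
  · exfalso
    apply he0
    have h1 : (⟨e, he.1⟩ : L) ∈ R := Submodule.subset_span he
    rw [h, LieSubmodule.mem_bot] at h1
    exact congrArg Subtype.val h1
  · have h1 : (⟨z, hz⟩ : L) ∈ R := by rw [h]; exact LieSubmodule.mem_top _
    exact h1

lemma exists_pair (hirr : ∀ W : Submodule K V, (∀ z ∈ L, ∀ w ∈ W, z w ∈ W) → W = ⊥ ∨ W = ⊤)
    (hsimple : IsSimple K L)
    (hsq : ∀ (α : H.root) (x : L), x ∈ rootSpace H α.1 →
      toEnd K L V x * toEnd K L V x = 0) {r : ℕ}
    {e : Module.End K V} (he : e ∈ TR.RD.Ex L.toSubmodule r)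
    (he0 : e ≠ 0) {z : Module.End K V} (hz : z ∈ L) (hz0 : z ≠ 0) :
    ∃ y ∈ TR.RD.Ex L.toSubmodule r, LinearMap.trace K V (z * y) ≠ 0 := by
  by_contra hcon
  push Not at hcon
  apply hz0
  apply nondeg hirr hsimple hz
  intro y hy
  have hy' : y ∈ L.toSubmodule := hy
  rw [← span_eq hirr hsimple hsq he he0] at hy'
  clear hy
  induction hy' using Submodule.span_induction with
  | zero => simp
  | add a b _ _ ha hb => rw [mul_add, map_add, ha, hb, add_zero]
  | smul c a _ ha => rw [mul_smul_comm, map_smul, ha, smul_zero]
  | mem y hy => exact hcon y hy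

/-- the rank theorem -/
theorem main (hirr : ∀ W : Submodule K V, (∀ z ∈ L, ∀ w ∈ W, z w ∈ W) → W = ⊥ ∨ W = ⊤)
    (hsimple : IsSimple K L)
    (hsq : ∀ (α : H.root) (x : L), x ∈ rootSpace H α.1 →
      toEnd K L V x * toEnd K L V x = 0)
    {e : Module.End K V} (he : e ∈ L)
    (he0 : e ≠ 0) (hee : e * e = 0) (hext : ∀ y ∈ L, ∃ c : K, e * y * e = c • e)
    {N : Module.End K V} (hN : N ∈ L) (hNN : N * N = 0) : rk e ∣ rk N := by
  have heE : e ∈ TR.RD.Ex L.toSubmodule (rk e) := ⟨he, hee, rfl, hext⟩
  have hL := irrSymp hirr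
  have main : ∀ n : ℕ, ∀ N ∈ L, N * N = 0 → rk N = n → rk e ∣ n := by
    intro n
    induction n using Nat.strong_induction_on with
    | _ n ih =>
      intro N hN hNN hn
      by_cases hN0 : N = 0
      · rw [← hn, hN0, rk_eq_zero.mpr rfl]
        exact dvd_zero _
      by_cases hall : ∀ y ∈ L, (rk N : K) * LinearMap.trace K V ((N * y) * (N * y)) =
          (LinearMap.trace K V (N * y)) ^ 2
      · have hex : ∀ y ∈ L, N * y * N = (LinearMap.trace K V (N * y) / rk N) • N :=
          fun y hy => ext_of_trace hirr hsimple hN hNN hN0 hall hy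
        obtain ⟨y, hy, hty⟩ := exists_pair hirr hsimple hsq heE he0 hN hN0
        have h1 : rk N ≤ rk y := TR.RD.le_of_ext (hex y hy.1) hty
        obtain ⟨c, hc⟩ := hy.2.2.2 N hN
        have h2 : rk y ≤ rk N := TR.RD.le_of_ext hc (by rwa [LinearMap.trace_mul_comm])
        rw [hy.2.2.1] at h1 h2
        rw [← hn, le_antisymm h1 h2]
      · push Not at hall
        obtain ⟨y, hy, hne⟩ := hall
        rcases TR.RD.dich hL (L := L.toSubmodule) hN hNN hN0 hy with
          ⟨u, hu, v, hv, huu, hvv, hsum, hu0, hv0⟩ | h
        · rw [← hn, ← hsum]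
          exact Nat.dvd_add (ih (rk u) (by omega) u hu huu rfl) (ih (rk v) (by omega) v hv hvv rfl)
        · exact absurd h hne
  exact main (rk N) N hN hNN rfl

end main

end LE2

section main

variable {K : Type*} [Field K] [CharZero K] [IsAlgClosed K] {V : Type*} [AddCommGroup V]
  [Module K V] [FiniteDimensional K V]
  {L : LieSubalgebra K (Module.End K V)} [IsKilling K L] {H : LieSubalgebra K L}
  [H.IsCartanSubalgebra] {I : Type*} [Fintype I] (B : WB (V := V) H I)

open Classical in
/-- LE2: the rank of a root vector divides the ranks of all square zero elements. -/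
theorem rank_dvd (hirr : ∀ W : Submodule K V, (∀ z ∈ L, ∀ w ∈ W, z w ∈ W) → W = ⊥ ∨ W = ⊤)
    (hsimple : IsSimple K L)
    (hsq : ∀ (α : H.root) (x : L), x ∈ rootSpace H α.1 →
      toEnd K L V x * toEnd K L V x = 0)
    (hsl : ∀ α β : H.root, α ≠ β → (rootSystem H).root α ≠ -(rootSystem H).root β →
      (rootSystem H).pairingIn ℤ α β = -1 ∨ (rootSystem H).pairingIn ℤ α β = 0 ∨
      (rootSystem H).pairingIn ℤ α β = 1)
    (α : H.root) {N : Module.End K V} (hN : N ∈ L) (hNN : N * N = 0) :
    (Finset.univ.filter (fun i => B.w i (coroot α.1) = 1)).card ∣ rk N := by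
  obtain ⟨e, f, ht, he, hf⟩ := exists_triple α
  have he0 : e ≠ 0 := ht.e_ne_zero
  rw [← TR.rank_root B hsq α he he0]
  have h1 : (e : Module.End K V) * (e : Module.End K V) = 0 := hsq α e he
  refine LE2.main hirr hsimple hsq e.2 (fun h => he0 (Subtype.ext h)) h1 ?_ hN hNN
  intro y hy
  obtain ⟨c, hc⟩ := LE2.ext_root hsl α he he0 ⟨y, hy⟩
  have hc' : (e : Module.End K V) * ((e : Module.End K V) * y - y * (e : Module.End K V)) -
      ((e : Module.End K V) * y - y * (e : Module.End K V)) * (e : Module.End K V) =
      c • (e : Module.End K V) := congrArg Subtype.val hc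
  have e1 : (e : Module.End K V) * ((e : Module.End K V) * y - y * (e : Module.End K V)) -
      ((e : Module.End K V) * y - y * (e : Module.End K V)) * (e : Module.End K V) =
      ((e : Module.End K V) * (e : Module.End K V)) * y + y *
      ((e : Module.End K V) * (e : Module.End K V)) - (2 : K) •
        ((e : Module.End K V) * y * (e : Module.End K V)) := by
    rw [two_smul]
    noncomm_ring
  rw [e1, h1, zero_mul, mul_zero, add_zero, zero_sub] at hc'
  refine ⟨-(2 : K)⁻¹ * c, ?_⟩
  rw [mul_smul, ← hc', smul_neg, neg_smul, neg_neg, smul_smul, inv_mul_cancel₀ two_ne_zero, one_smul]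

end main

end UN
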